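import Mathlib
import Pool.Agent.K9h17.S.Stm
import Pool.Agent.H204R3.GP.Defs

/-!
# Simple abelian varieties of type IV with balanced signatures, and classes of low degree

Let `Y` be a simple abelian variety and let `a` be an endomorphism such that `ℚ[a]` is a maximal
subfield of the endomorphism algebra, of degree `m`. The embeddings of `ℚ[a]` in `ℂ` are the roots
`s` of the minimal polynomial of `a`, and `ℂ ⊗ H_1(Y, ℚ)` is the sum of the eigenspaces `V_s`, of
dimension `2 dim(Y) / m`, the relative dimension of `Y`.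
-/

namespace Pool.Agent.K9h17.C

open Module Pool.Agent.Y90 Pool.Agent.R915 Pool.Agent.N183.U5 Polynomial
open Pool.Agent.H204R3.GP (IsTateClass IsWedge)

/-- `p` is not one of the numbers `C(2 t - 1, t)` with `t ≥ 3`. (The odd numbers among them are
`35`, `6435`, and so on; they occur for `t` a power of two.) -/
def NotMiddle (p : ℕ) : Prop := ∀ t : ℕ, 3 ≤ t → p ≠ (2 * t - 1).choose t

/-- `Y` is of type IV (the centre of the endomorphism algebra, generated by `φ`, is a totally
imaginary field) and there is an odd number `p`, not of the form `C(2 t - 1, t)` with `t ≥ 3`, such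
that the relative dimension is `2 p` and each embedding `s` of a maximal subfield `ℚ[a]` has the
multiplicity `p` on the tangent space of `Y`. (The relative signatures are `(p, p)`; if `ℚ[a]` is an
imaginary quadratic field then `Y` is an abelian variety of Weil type.) -/
def BalancedOdd (Y : AV) : Prop :=
  ∃ (a : Module.End ℚ Y.H) (Ψ : Module.End ℂ Y.T) (p : ℕ), MaxField Y a ∧
    (∀ v, Ψ (Y.per v) = Y.per (a v)) ∧ Odd p ∧ NotMiddle p ∧
    (∀ s : ℂ, aeval s (minpoly ℚ a) = 0 → finrank ℂ (Ψ.eigenspace s) = p) ∧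
    (minpoly ℚ a).natDegree * (p + p) = finrank ℚ Y.H ∧
    ∃ φ : Module.End ℚ Y.H, CentreGen Y φ ∧ ∀ s : ℂ, aeval s (minpoly ℚ φ) = 0 → s.im ≠ 0

/-- The simple abelian variety `Y` is of type I or II, or its relative dimension is at least `r`, or
its relative dimension is at least `r / 2` and for one embedding `s` of a maximal subfield `ℚ[a]` the
multiplicity of `s` on the tangent space of `Y` is not half the relative dimension. -/
def IsLarge (r : ℕ) (Y : AV) : Prop :=
  (∃ a, RealMax Y a) ∨
    ∃ (a : Module.End ℚ Y.H) (Ψ : Module.End ℂ Y.T), MaxField Y a ∧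
      (∀ v, Ψ (Y.per v) = Y.per (a v)) ∧
      ((minpoly ℚ a).natDegree * r ≤ finrank ℚ Y.H ∨
        ((minpoly ℚ a).natDegree * r ≤ 2 * finrank ℚ Y.H ∧
          ∃ s : ℂ, aeval s (minpoly ℚ a) = 0 ∧
            (minpoly ℚ a).natDegree * (2 * finrank ℂ (Ψ.eigenspace s)) ≠ finrank ℚ Y.H))

/-- On all powers `X ^ n`, all Tate classes in `H^{2m}(X ^ n, ℚ_ℓ(m))` are linear combinations of
wedge products of Tate classes of degree two. -/
def TateGeneratedInCodim {k V Γ : Type*} [Field k] [AddCommGroup V] [Module k V] [Group Γ]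
    (ρ : Representation k Γ V) (χ : Γ →* k) (m : ℕ) : Prop :=
  ∀ (n : ℕ) (f : (Fin n → V) [⋀^Fin m × Fin 2]→ₗ[k] k), IsTateClass ρ χ m f →
    f ∈ Submodule.span k {g : (Fin n → V) [⋀^Fin m × Fin 2]→ₗ[k] k |
      ∃ B : Fin m → (Fin n → V) [⋀^Fin 2]→ₗ[k] k, (∀ l, IsTateClass ρ χ 1 (B l)) ∧ IsWedge B g}

end Pool.Agent.K9h17.C
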