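import Mathlib
import Pool.Agent.K9h17.G.Loc
import Pool.Agent.K9h17.B.Pair
import Pool.Agent.N183.U5.Zer
import Pool.Agent.N183.U5.Ctr
import Pool.Agent.K9h17.C.Stm

/-!
# Elements of rank one if all the signatures are balanced
-/

set_option linter.unusedSectionVars false

namespace Pool.Agent.K9h17.C

open Matrix Module Pool.Agent.W437.HC Pool.Agent.W437.HD Pool.Agent.W548.Odd Pool.Agent.W522.U
open Pool.Agent.H204R3.SP Pool.Agent.H204R3.GP Pool.Agent.Y90 Pool.Agent.Y224.TS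
open Pool.Agent.W437.HP (cK cK_mul cK_one)
open Pool.Agent.R915 (VE mem_VE VE_cj VE_main VE_stab eig_conj root_conj)
open Pool.Agent.N183.TS Pool.Agent.N183.U5
open Polynomial

noncomputable section

variable {G : ℕ} {Z : Matrix (Fin G) (Fin G) ℂ}
  {S : Set (Matrix (Fin G ⊕ Fin G) (Fin G ⊕ Fin G) ℂ)}

/-- Irreducible submodules with a label which is not real are not self-dual. -/
theorem no_form (h : PM Z) {M : Matrix (Fin G ⊕ Fin G) (Fin G ⊕ Fin G) ℚ} (k : CG Z M)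
    {U : Submodule ℂ (Fin G ⊕ Fin G → ℂ)} (hU : IrS (LZ Z) U) {θ : ℂ} (hθ : U ≤ VE M θ)
    (hne : cc θ ≠ θ) (b : (Fin G ⊕ Fin G → ℂ) →ₗ[ℂ] (Fin G ⊕ Fin G → ℂ) →ₗ[ℂ] ℂ)
    (hb : ∀ X ∈ LZ Z, ∀ u ∈ U, ∀ v ∈ U, b (X *ᵥ u) v + b u (X *ᵥ v) = 0) :
    ∀ u ∈ U, ∀ v ∈ U, b u v = 0 := by
  intro u hu v hv
  by_contra h0
  have hd : Du (RZ Z) 1 U U := (rz_du h hU.2.1 hU.2.1).2 ⟨b, ⟨u, hu, v, hv, h0⟩, hb⟩
  have h1 := (k.du h hU hU hd hθ).1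
  obtain ⟨w, hw, hw0⟩ := Submodule.exists_mem_ne_zero_of_ne_bot hU.1
  have h2 := mem_VE.1 (hθ hw)
  rw [mem_VE.1 (h1 hw)] at h2
  apply hne
  have h3 : (cc θ - θ) • w = 0 := by rw [sub_smul, h2, sub_self]
  exact sub_eq_zero.1 ((smul_eq_zero.1 h3).resolve_right hw0)

variable (h : TD Z S) (hZ : PM Z) {D : Matrix (Fin G ⊕ Fin G) (Fin G ⊕ Fin G) ℂ} (hD : D ∈ S)
  {U : Submodule ℂ (Fin G ⊕ Fin G → ℂ)} (hU : IrS (LZ Z) U)
include h hZ hD hU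

/-- Elements of rank one if all the signatures are balanced. -/
theorem rk1_odd {p : ℕ} (hpd : ∀ τ : ℂ ≃+* ℂ, pd Z (cjS τ U) = p)
    (hqd : ∀ τ : ℂ ≃+* ℂ, qd Z (cjS τ U) = p) (hodd : Odd p) (hnm : NotMiddle p)
    (hnb : ∀ b : (Fin G ⊕ Fin G → ℂ) →ₗ[ℂ] (Fin G ⊕ Fin G → ℂ) →ₗ[ℂ] ℂ,
      (∀ X ∈ LZ Z, ∀ u ∈ U, ∀ v ∈ U, b (X *ᵥ u) v + b u (X *ᵥ v) = 0) →
      ∀ u ∈ U, ∀ v ∈ U, b u v = 0) : Rk1D S D U := by
  have hU' : IrS (Y224.TS.LT S) U := (h.irS hZ).2 hU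
  have hst' : ∀ X ∈ Y224.TS.LT S, ∀ u ∈ U, X *ᵥ u ∈ U := hU'.2.1
  have hst : ∀ u ∈ U, D *ᵥ u ∈ U := fun u hu => hU'.2.1 D (LT_gen hD) u hu
  have hDD : ∀ D ∈ S, ph (Fin G ⊕ Fin G) D * ph (Fin G ⊕ Fin G) D = 1 := fun D hD => by
    rw [← map_mul, h.sq D hD, map_one]
  have htr : ∀ D' ∈ S, ∀ hD' : (∀ u ∈ U, D' *ᵥ u ∈ U), LinearMap.trace ℂ U (resM D' U hD') = 0 ∧
      finrank ℂ U = p + p := by
    intro D' hD' h4
    obtain ⟨τ, hτ⟩ := h.tr D' hD'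
    obtain ⟨e1, e2⟩ := h.dims hZ hD' hτ hU.2.1
    have e3 := es_add (hDD D' hD') h4
    rw [trace_res (h.sq D' hD') h4, e1, e2, hpd, hqd, sub_self]
    rw [e1, e2, hpd, hqd] at e3
    exact ⟨rfl, e3.symm⟩
  obtain ⟨x, hx, h1, h2, h3⟩ := B.exists_rk1_odd (𝔤 := resL (Y224.TS.LT S) U)
    (resL_br (fun X hX Y hY => LT_br hX hY) U) (res_irr h.sq hU')
    {X | ∃ D' ∈ S, ∃ hD' : ∀ u ∈ U, D' *ᵥ u ∈ U, X = resM D' U hD'}
    (by
      rintro _ ⟨D', hD', h4, rfl⟩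
      exact ⟨D', LT_gen hD', fun u => rfl⟩)
    (by
      rintro _ ⟨D', hD', h4, rfl⟩
      exact res_sq (h.sq D' hD') h4)
    (fun L hL1 hL2 => res_ind hst' L (fun D hD => hL1 _ ⟨D, hD, _, rfl⟩) hL2)
    (by
      rintro _ ⟨D', hD', h4, rfl⟩
      exact (htr D' hD' h4).1)
    (by
      intro β _ hβ u v
      obtain ⟨g, hg⟩ := LinearMap.exists_leftInverse_of_injective U.subtype
        (Submodule.ker_subtype U)
      have hg' : ∀ u : U, g (u : Fin G ⊕ Fin G → ℂ) = u := fun u => congrArg (fun f => f u) hg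
      have hbT : ∀ X ∈ Y224.TS.LT S, ∀ u ∈ U, ∀ v ∈ U,
          (β.compl₁₂ g g) (X *ᵥ u) v + (β.compl₁₂ g g) u (X *ᵥ v) = 0 := by
        intro X hX u hu v hv
        have e1 := hβ (resM X U (hst' X hX)) ⟨X, hX, fun u => rfl⟩ ⟨u, hu⟩ ⟨v, hv⟩
        rw [LinearMap.compl₁₂_apply, LinearMap.compl₁₂_apply]
        have e2 := hg' (resM X U (hst' X hX) ⟨u, hu⟩)
        have e3 := hg' (resM X U (hst' X hX) ⟨v, hv⟩)
        have e4 := hg' ⟨u, hu⟩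
        have e5 := hg' ⟨v, hv⟩
        rw [resM_coe] at e2 e3
        change g (X *ᵥ u) = _ at e2
        change g (X *ᵥ v) = _ at e3
        change g u = _ at e4
        change g v = _ at e5
        rw [e2, e3, e4, e5]
        exact e1
      have e6 := hnb _ ((h.bil_on hZ hU.2.1 hU.2.1 (β.compl₁₂ g g)).1 hbT) u u.2 v v.2
      rw [LinearMap.compl₁₂_apply, hg', hg'] at e6
      exact e6)
    (D := resM D U hst) ⟨D, LT_gen hD, fun u => rfl⟩ (res_sq (h.sq D hD) hst) (htr D hD hst).2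
    hodd hnm
  exact ⟨1, Or.inl rfl, rk_of_res h.sq hD hst (Or.inl rfl) hx (by rw [one_smul, h1])
    (by rw [one_smul, h2]) h3⟩

omit hD in
/-- Elements of rank one for a maximal subfield. -/
theorem rk1T_odd (hs : IsSimpleAV Z) (hg : 0 < G)
    {M : Matrix (Fin G ⊕ Fin G) (Fin G ⊕ Fin G) ℚ} (k : MF Z M)
    {M' : Matrix (Fin G ⊕ Fin G) (Fin G ⊕ Fin G) ℚ} (k' : CG Z M')
    (him : ∀ s : ℂ, aeval s (minpoly ℚ M') = 0 → cc s ≠ s)
    {p : ℕ} (hp : ∀ s : ℂ, aeval s (minpoly ℚ M) = 0 → pd Z (VE M s) = p)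
    (hq : ∀ s : ℂ, aeval s (minpoly ℚ M) = 0 → qd Z (VE M s) = p)
    (hodd : Odd p) (hnm : NotMiddle p) : Rk1T S U := by
  obtain ⟨s, T, hs0, hne', hT, hi, hTU⟩ := k.proj hZ hs hg hU
  refine Rk1T.of_map h hZ hU hT hi ?_
  rw [hTU]
  have hir := k.irr hZ hs hne'
  obtain ⟨D, hD, -⟩ := h.ex (RingEquiv.refl ℂ)
  obtain ⟨θ, hθ⟩ := k'.label hZ hir
  refine (rk1_odd h hZ hD hir (fun τ => ?_) (fun τ => ?_) hodd hnm ?_).rk1T hD
  · rw [VE_cj]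
    exact hp _ (root_conj hs0 τ)
  · rw [VE_cj]
    exact hq _ (root_conj hs0 τ)
  · refine no_form hZ k' hir hθ (him θ ?_)
    obtain ⟨v, hv, hv0⟩ := Submodule.exists_mem_ne_zero_of_ne_bot hne'
    have h1 := R915.aeval_eig (mem_VE.1 (hθ hv)) (minpoly ℚ M')
    rw [minpoly.aeval, qm_zero, zero_mulVec] at h1
    exact (smul_eq_zero.1 h1.symm).resolve_right hv0

omit hD hU in
/-- The balanced class. -/
theorem BalancedOdd.cls (hs : IsSimpleAV Z) (hg : 0 < G) (k : BalancedOdd (AVZ hZ))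
    {U : Submodule ℂ (Fin G ⊕ Fin G → ℂ)} (hU : IrS (LZ Z) U) : Rk1T S U := by
  obtain ⟨a, Ψ, p, k, hΨ, hodd, hnm, hp, hdim, φ, hφ, him⟩ := k
  have hpd := fun s' => pd_mult hZ k hΨ s'
  rw [← minpoly_mat, R915.finrank_AVZ] at hdim
  have hdeg : 0 < (minpoly ℚ (LinearMap.toMatrix' a)).natDegree := by
    rw [Nat.pos_iff_ne_zero]
    intro h5
    rw [h5, zero_mul] at hdim
    omega
  have hall : ∀ s' : ℂ, aeval s' (minpoly ℚ (LinearMap.toMatrix' a)) = 0 →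
      pd Z (VE (LinearMap.toMatrix' a) s') + qd Z (VE (LinearMap.toMatrix' a) s') = p + p := by
    intro s' hs'
    have h3 := (k.mf hZ).dim hZ hs hg (VE_ne_of_root hs')
    rw [← hdim] at h3
    have h4 := Nat.eq_of_mul_eq_mul_left hdeg h3
    rw [← h4]
    exact pd_add_qd hZ (VE_stab (k.mf hZ).comm s')
  have hp' : ∀ s : ℂ, aeval s (minpoly ℚ (LinearMap.toMatrix' a)) = 0 →
      pd Z (VE (LinearMap.toMatrix' a) s) = p := by
    intro s hs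
    rw [hpd]
    refine hp s ?_
    rw [← minpoly_mat]
    exact hs
  have hcg : CG Z (LinearMap.toMatrix (Pi.basisFun ℚ (Fin G ⊕ Fin G))
      (Pi.basisFun ℚ (Fin G ⊕ Fin G)) φ) := by
    refine CentreGen.cg (X := AVZ hZ) (b := Pi.basisFun ℚ (Fin G ⊕ Fin G)) ?_ hφ
    exact hZ.cht
  refine rk1T_odd h hZ hU hs hg (k.mf hZ) hcg (fun s hs => ?_) hp' (fun s hs => ?_) hodd hnm
  · have h1 : aeval s (minpoly ℚ φ) = 0 := by
      rw [← hs]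
      congr 1
      exact (minpoly.algEquiv_eq (LinearMap.toMatrixAlgEquiv (Pi.basisFun ℚ (Fin G ⊕ Fin G)))
        φ).symm
    exact fun h2 => him s h1 (Complex.conj_eq_iff_im.1 h2)
  · have h1 := hall s hs
    have h2 := hp' s hs
    omega

end

end Pool.Agent.K9h17.C
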