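import Mathlib
import Pool.Agent.K9h17.C.Loc
import Pool.Agent.R915.E7

/-!
# Large irreducible submodules
-/

set_option linter.unusedSectionVars false

namespace Pool.Agent.K9h17.C

open Matrix Module Pool.Agent.W437.HC Pool.Agent.W437.HD Pool.Agent.W548.Odd Pool.Agent.W522.U
open Pool.Agent.H204R3.SP Pool.Agent.H204R3.GP Pool.Agent.Y90 Pool.Agent.Y224.TS
open Pool.Agent.W437.HP (cK cK_mul cK_one)
open Pool.Agent.R915 (VE mem_VE VE_cj VE_main VE_stab eig_conj root_conj RF)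
open Pool.Agent.N183.TS Pool.Agent.N183.U5
open Polynomial

open scoped ComplexOrder

noncomputable section

variable {G : ℕ} {Z : Matrix (Fin G) (Fin G) ℂ}

/-- The submodule is self-dual, or its dimension is at least `N`, or at least `N / 2` and some trace
is not zero. -/
def LgU (Z : Matrix (Fin G) (Fin G) ℂ) (N : ℕ) (U : Submodule ℂ (Fin G ⊕ Fin G → ℂ)) : Prop :=
  (∃ b : (Fin G ⊕ Fin G → ℂ) →ₗ[ℂ] (Fin G ⊕ Fin G → ℂ) →ₗ[ℂ] ℂ,
    (∃ u ∈ U, ∃ v ∈ U, b u v ≠ 0) ∧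
      ∀ X ∈ LZ Z, ∀ u ∈ U, ∀ v ∈ U, b (X *ᵥ u) v + b u (X *ᵥ v) = 0) ∨
    N ≤ finrank ℂ U ∨
      (N ≤ 2 * finrank ℂ U ∧ ∃ τ : ℂ ≃+* ℂ, Pool.Agent.Y90.tr Z (cjS τ U) ≠ 0)

/-- The conjugate of a linear map. -/
def cjT (τ : ℂ ≃+* ℂ) (T : (Fin G ⊕ Fin G → ℂ) →ₗ[ℂ] (Fin G ⊕ Fin G → ℂ)) :
    (Fin G ⊕ Fin G → ℂ) →ₗ[ℂ] (Fin G ⊕ Fin G → ℂ) where
  toFun v := fun i => τ (T (fun j => τ.symm (v j)) i)
  map_add' u v := by
    have h1 : (fun j => τ.symm ((u + v) j)) = (fun j => τ.symm (u j)) + fun j => τ.symm (v j) := by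
      funext i
      exact map_add τ.symm _ _
    rw [h1, map_add]
    funext i
    exact map_add τ _ _
  map_smul' c u := by
    have h1 : (fun i => τ.symm ((c • u) i)) = τ.symm c • fun i => τ.symm (u i) := by
      funext i
      exact map_mul τ.symm _ _
    rw [h1, map_smul]
    funext i
    change τ (τ.symm c * _) = c * τ _
    rw [map_mul, RingEquiv.apply_symm_apply]

theorem cjT_apply (τ : ℂ ≃+* ℂ) (T : (Fin G ⊕ Fin G → ℂ) →ₗ[ℂ] (Fin G ⊕ Fin G → ℂ))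
    (v : Fin G ⊕ Fin G → ℂ) : cjT τ T v = fun i => τ (T (fun j => τ.symm (v j)) i) := rfl

/-- The traces of isomorphic submodules. -/
theorem tr_conj (h : PM Z) {U W : Submodule ℂ (Fin G ⊕ Fin G → ℂ)} (hU : Stab (LZ Z) U)
    {T : (Fin G ⊕ Fin G → ℂ) →ₗ[ℂ] (Fin G ⊕ Fin G → ℂ)}
    (hT : ∀ X ∈ LZ Z, ∀ u ∈ U, T (X *ᵥ u) = X *ᵥ T u) (hi : ∀ u ∈ U, T u = 0 → u = 0)
    (hW : U.map T = W) (hWs : Stab (LZ Z) W) (τ : ℂ ≃+* ℂ) :
    Pool.Agent.Y90.tr Z (cjS τ U) = Pool.Agent.Y90.tr Z (cjS τ W) := by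
  have hU' : Stab (LZ Z) (cjS τ U) := hU.cj gal_LZ τ
  have h1 : pd Z (cjS τ W) = pd Z (cjS τ U) := by
    refine pd_iso (T := cjT τ T) (fun X hX u hu => ?_) (fun u hu h0 => ?_) hU' ?_
    · rw [cjT_apply, cjT_apply, map_mulVec_aut τ.symm, hT _ (gal_LZ τ.symm X hX) _ hu,
        map_mulVec_aut τ]
      congr 1
      ext i j
      simp
    · have h2 : T (fun j => τ.symm (u j)) = 0 := by
        funext i
        have h3 := congrFun h0 i
        rw [cjT_apply] at h3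
        exact (map_eq_zero_iff τ τ.injective).1 h3
      have h3 := hi _ hu h2
      funext i
      have h4 := congrFun h3 i
      exact (map_eq_zero_iff τ.symm τ.symm.injective).1 h4
    · rw [← hW]
      ext v
      constructor
      · rintro ⟨u, hu, rfl⟩
        rw [mem_cjS]
        refine ⟨fun j => τ.symm (u j), hu, ?_⟩
        funext i
        rw [cjT_apply]
        simp
      · intro hv
        rw [mem_cjS] at hv
        obtain ⟨u, hu, hu'⟩ := hv
        refine ⟨fun j => τ (u j), cj_mem_cjS hu, ?_⟩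
        rw [cjT_apply]
        funext i
        have h5 : (fun j => τ.symm ((fun j => τ (u j)) j)) = u := by
          funext j
          simp
        rw [h5, hu']
        simp
  have h2 : finrank ℂ (cjS τ U) = finrank ℂ (cjS τ W) := by
    rw [finrank_cjS, finrank_cjS, ← hW]
    exact (finrank_map_of_inj hi).symm
  have h3 := pd_add_qd h hU'
  have h4 := pd_add_qd h (hWs.cj gal_LZ τ)
  unfold Pool.Agent.Y90.tr
  omega

/-- The classes of simple abelian varieties. -/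
theorem IsLarge.lg (h : PM Z) (hs : IsSimpleAV Z) (hg : 0 < G) {N : ℕ} (k : IsLarge N (AVZ h))
    {U : Submodule ℂ (Fin G ⊕ Fin G → ℂ)} (hU : IrS (LZ Z) U) : LgU Z N U := by
  rcases k with ⟨a, k⟩ | ⟨a, Ψ, k, hΨ, hd⟩
  · -- real multiplication
    left
    have k := k.rf
    obtain ⟨θ, hθ, hdim, hproj⟩ := VE_main h hs hg k.comm
    obtain ⟨σ, T, hT, hi, hTU⟩ := hproj U hU
    have hU' := R915.irS_map hU hT hi
    have hneσ : VE (LinearMap.toMatrix' a) (σ θ) ≠ ⊥ :=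
      fun h1 => hU'.1 (by rwa [h1, le_bot_iff] at hTU)
    have hW := k.irr h hs (θ := σ θ) hneσ
    have hreal : cc (σ θ) = σ θ := k.real _ (R915.root_conj hθ σ)
    rcases hW.2.2 _ hTU hU'.2.1 with h1 | h1
    · exact absurd h1 hU'.1
    let b : (Fin G ⊕ Fin G → ℂ) →ₗ[ℂ] (Fin G ⊕ Fin G → ℂ) →ₗ[ℂ] ℂ := (om G).compl₁₂ T T
    have hb : ∀ u v, b u v = om G (T u) (T v) := fun _ _ => rfl
    refine ⟨b, ?_, ?_⟩
    · obtain ⟨w, hw, hw0⟩ := Submodule.exists_mem_ne_zero_of_ne_bot hW.1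
      have h5 : cnj w ∈ VE (LinearMap.toMatrix' a) (σ θ) := by
        have h5 : cjS cc (VE (LinearMap.toMatrix' a) (σ θ)) =
            VE (LinearMap.toMatrix' a) (σ θ) := by
          rw [VE_cj, hreal]
        rw [← h5]
        change (fun i => cc.symm (cnj w i)) ∈ VE (LinearMap.toMatrix' a) (σ θ)
        have h6 : (fun i => cc.symm (cnj w i)) = w := cnj_cnj w
        rwa [h6]
      have h6 : DZ Z *ᵥ w ∈ VE (LinearMap.toMatrix' a) (σ θ) := hW.2.1 _ DZ_mem w hw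
      rw [← h1] at h5 h6
      obtain ⟨u, hu, hu'⟩ := h5
      obtain ⟨v, hv, hv'⟩ := h6
      refine ⟨u, hu, v, hv, fun h0 => ?_⟩
      rw [hb, hu', hv'] at h0
      have h5 := h.herm_pos hw0
      rw [h0, mul_zero] at h5
      exact lt_irrefl _ h5
    · intro X hX u hu v hv
      rw [hb, hb, hT X hX u hu, hT X hX v hv]
      exact h.om_sp hX _ _
  · right
    have km := k.mf h
    have hpd := fun s' => pd_mult h k hΨ s'
    rw [← minpoly_mat, R915.finrank_AVZ] at hd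
    obtain ⟨s, T, hs0, hne, hT, hi, hTU⟩ := km.proj h hs hg hU
    have hdim := km.dim h hs hg hne
    have hfr : finrank ℂ U = finrank ℂ (VE (LinearMap.toMatrix' a) s) := by
      rw [← hTU]
      exact (finrank_map_of_inj hi).symm
    have hdeg : 0 < (minpoly ℚ (LinearMap.toMatrix' a)).natDegree := by
      rw [Nat.pos_iff_ne_zero]
      intro h5
      rw [h5, zero_mul] at hdim
      omega
    rcases hd with hd | ⟨hd, s0, hs0', hd2⟩
    · left
      rw [hfr]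
      rw [← hdim] at hd
      exact Nat.le_of_mul_le_mul_left hd hdeg
    · right
      refine ⟨?_, ?_⟩
      · rw [hfr]
        rw [← hdim, mul_left_comm] at hd
        exact Nat.le_of_mul_le_mul_left hd hdeg
      · have hne0 := VE_ne_of_root hs0'
        have hdim0 := km.dim h hs hg hne0
        obtain ⟨v, hv, hv0⟩ := Submodule.exists_mem_ne_zero_of_ne_bot hne
        obtain ⟨w, hw, hw0⟩ := Submodule.exists_mem_ne_zero_of_ne_bot hne0
        obtain ⟨σ, hσ⟩ := eig_conj h hs km.comm hv0 (mem_VE.1 hv) hw0 (mem_VE.1 hw)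
        refine ⟨σ, ?_⟩
        rw [tr_conj h hU.2.1 hT hi hTU (VE_stab km.comm s), VE_cj, hσ]
        have h6 := pd_add_qd h (VE_stab km.comm s0)
        intro h7
        apply hd2
        have h8 : pd Z (VE (LinearMap.toMatrix' a) s0) = qd Z (VE (LinearMap.toMatrix' a) s0) := by
          unfold Pool.Agent.Y90.tr at h7
          omega
        rw [← hpd, ← hdim0, ← h6, ← h8]
        ring

/-- Transport from a factor. -/
theorem LgU.of_fac {a : ℕ} {Z' : Matrix (Fin a) (Fin a) ℂ}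
    {E : Matrix (Fin G ⊕ Fin G) (Fin a ⊕ Fin a) ℚ} {F : Matrix (Fin a ⊕ Fin a) (Fin G ⊕ Fin G) ℚ}
    (hf : Fac Z Z' E F) {U : Submodule ℂ (Fin G ⊕ Fin G → ℂ)} (hU : IrS (LZ Z) U)
    (h0 : ∃ u ∈ U, ml F u ≠ 0) {N : ℕ} (k : LgU Z' N (U.map (ml F))) : LgU Z N U := by
  have hinj := hf.inj hU h0
  rcases k with ⟨b, ⟨u', hu', v', hv', h1⟩, hb⟩ | k | ⟨k, τ, hτ⟩
  · left
    obtain ⟨u, hu, rfl⟩ := hu'
    obtain ⟨v, hv, rfl⟩ := hv'
    refine ⟨b.compl₁₂ (ml F) (ml F), ⟨u, hu, v, hv, h1⟩, fun X hX u hu v hv => ?_⟩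
    change b (ml F (X *ᵥ u)) (ml F v) + b (ml F u) (ml F (X *ᵥ v)) = 0
    rw [hf.act hX, hf.act hX]
    exact hb _ (hf.comp hX).1 _ ⟨u, hu, rfl⟩ _ ⟨v, hv, rfl⟩
  · right
    left
    rwa [finrank_ml hinj] at k
  · right
    right
    rw [finrank_ml hinj] at k
    refine ⟨k, τ, ?_⟩
    rwa [cjS_ml, hf.tr_map (inj_cj hinj τ) (hU.2.1.cj gal_LZ τ)] at hτ

end

end Pool.Agent.K9h17.C
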