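import Mathlib
import Pool.Agent.N183.U5.Glb
import Pool.Agent.K9h17.G.T2
import Pool.Agent.K9h17.C.Lg

/-!
# Tate classes of low degree are generated in degree two
-/

set_option linter.unusedSectionVars false

namespace Pool.Agent.K9h17.C

open Matrix Module Pool.Agent.W437.HC Pool.Agent.W437.HD Pool.Agent.W548.Odd Pool.Agent.W522.U
open Pool.Agent.H204R3.SP Pool.Agent.H204R3.GP Pool.Agent.Y90 Pool.Agent.Y224.TS TensorProduct
open Pool.Agent.Y224.TS.St (IsHodgeTate IsTateModule)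
open Pool.Agent.W437.HP (cK cK_mul cK_one)
open Pool.Agent.R915 (CentM commL_of VE mem_VE VE_cj VE_stab)
open Pool.Agent.N183.TS Pool.Agent.N183.U5 Pool.Agent.K9h17.G

noncomputable section

section clo

variable {K : Type*} [Field K] {X : Type*} [AddCommGroup X] [Module K X]

/-- The products of pairs if there are less than `N` variables, and all forms otherwise. -/
def LP (p : (X →ₗ[K] X →ₗ[K] K) → Prop) (N : ℕ) (κ : Type) [Finite κ] :
    Submodule K (MultilinearMap K (fun _ : κ => X) K) :=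
  if Nat.card κ < N then NP p κ else ⊤

variable {p : (X →ₗ[K] X →ₗ[K] K) → Prop} {N : ℕ}

theorem LP_of_NP {κ : Type} [Finite κ] {φ : MultilinearMap K (fun _ : κ => X) K}
    (h : φ ∈ NP p κ) : φ ∈ LP p N κ := by
  unfold LP
  split_ifs with h1
  · exact h
  · trivial

theorem LP_of_ge {κ : Type} [Finite κ] {φ : MultilinearMap K (fun _ : κ => X) K}
    (h : N ≤ Nat.card κ) : φ ∈ LP p N κ := by
  unfold LP
  rw [if_neg (not_lt.2 h)]
  trivial

theorem NP_of_LP {κ : Type} [Finite κ] {φ : MultilinearMap K (fun _ : κ => X) K}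
    (h : φ ∈ LP p N κ) (h1 : Nat.card κ < N) : φ ∈ NP p κ := by
  unfold LP at h
  rwa [if_pos h1] at h

theorem clo_LP : Clo (LP p N) := by
  constructor
  · intro κ _ _ φ
    exact LP_of_NP (clo_NP.unit κ φ)
  · intro κ κ' κ'' _ _ _ e φ φ' ψ hφ hφ' hψ
    by_cases h1 : Nat.card κ'' < N
    · have h2 : Nat.card κ + Nat.card κ' = Nat.card κ'' := by
        rw [← Nat.card_sum]
        exact Nat.card_congr e
      exact LP_of_NP (clo_NP.mul κ κ' κ'' e φ φ' ψ (NP_of_LP hφ (by omega))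
        (NP_of_LP hφ' (by omega)) hψ)
    · exact LP_of_ge (not_lt.1 h1)

end clo

variable {G : ℕ} {Z : Matrix (Fin G) (Fin G) ℂ}
  {S : Set (Matrix (Fin G ⊕ Fin G) (Fin G ⊕ Fin G) ℂ)}

section main

variable (h : TD Z S) (hZ : PM Z) (hs : Gd Z S) {N : ℕ}
  (hl : ∀ U : Submodule ℂ (Fin G ⊕ Fin G → ℂ), IrS (LZ Z) U → LgU Z N U)
include h hZ hs hl

/-- Invariant forms. -/
theorem inv_LP {m : ℕ}
    (φ : MultilinearMap ℂ (fun _ : Fin m × Fin 2 => Fin G ⊕ Fin G → ℂ) ℂ)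
    (hφ : ∀ (g : Gam (GG (Y224.TS.LT S))) v, φ (fun k => RG (GG (Y224.TS.LT S)) g (v k)) = φ v) :
    φ ∈ LP (KB Z) N (Fin m × Fin 2) := by
  have hSI : ∀ {U}, W522.U.SI (RG (GG (Y224.TS.LT S))) U ↔ IrS (LZ Z) U := fun {U} => h.si hZ
  have hp := gz_proj h.genI h.cr
  obtain ⟨s, W, hW, hWW, hall⟩ := exists_reps hp
  obtain ⟨st, hst, hDu, hDu'⟩ := exists_st (χ := 1) hp (om G) om_nd (h.om' hZ) W hW hWW hall
  refine R915.forms_mem' (χ := 1) (fun Δ hΔ => fi_top Δ hΔ) (om G) om_nd (h.om' hZ) ?_ ?_ ?_ hp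
    W hW hWW hall st hst hDu hDu' (LP (KB Z) N) clo_LP ?_ ?_ φ ?_
  · intro U hU hn
    exact (hs.r _ (hSI.1 hU) hn).unip h
  · intro U hU hn
    exact h.line hZ (hSI.1 hU) hn
  · intro U U' hU hU' hn _ ψ hT
    exact hs.t U U' (hSI.1 hU) (hSI.1 hU') hn ψ hT
  · intro b hb
    refine LP_of_NP (bil2_NP ?_)
    refine (h.bil b (fun X hX => hZ.om_sp hX)).1 (fun X hX u v => ?_)
    exact (gz_bil h.genI stab_top stab_top b).1 (fun g u _ v _ => by
      rw [hb, MonoidHom.one_apply, one_mul]) X hX u trivial v trivial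
  · intro a ha hag ι _ _ f p hp ψ hψ
    have hW' : ∀ i, IrS (LZ Z) (W i) := fun i => hSI.1 (hW i)
    have htr := balT h hZ W hW' st hst (fun i => (h.du hZ (hW' i).2.1 (hW' _).2.1).1 (hDu i)) a ha
      (h.tr_of_det hZ W hW' a hag)
    have hcard : Nat.card (Σ q, ι q) = ∑ q : (Σ i, Fin (a i).toNat), finrank ℂ (W q.1) := by
      rw [Nat.card_sigma]
      refine Finset.sum_congr rfl fun q _ => ?_
      rw [Nat.card_eq_fintype_card, finrank_eq_card_basis (f q)]
    by_cases hemp : IsEmpty (Σ i, Fin (a i).toNat)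
    · have : IsEmpty (Σ q : (Σ i, Fin (a i).toNat), ι q) := ⟨fun x => hemp.false x.1⟩
      exact clo_LP.unit _ _
    rw [not_isEmpty_iff] at hemp
    obtain ⟨q0⟩ := hemp
    apply LP_of_ge
    rw [hcard]
    -- each component is large
    have hbig : ∀ q : (Σ i, Fin (a i).toNat), N ≤ finrank ℂ (W q.1) ∨
        (N ≤ 2 * finrank ℂ (W q.1) ∧ ∃ τ : ℂ ≃+* ℂ, Pool.Agent.Y90.tr Z (cjS τ (W q.1)) ≠ 0) := by
      intro q
      have h1 : (a q.1).toNat ≠ 0 := (Nat.zero_lt_of_lt q.2.2).ne'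
      rcases hl _ (hW' q.1) with ⟨b, h0, hb⟩ | h2
      · exfalso
        have h2 : Du (RZ Z) 1 (W q.1) (W q.1) :=
          (rz_du hZ (hW' q.1).2.1 (hW' q.1).2.1).2 ⟨b, h0, hb⟩
        have h3 := hDu' _ _ ((h.du hZ (hW' q.1).2.1 (hW' q.1).2.1).2 h2)
        have h4 := ha q.1
        rw [← h3] at h4
        omega
      · exact h2
    by_cases hone : ∃ q1, q1 ≠ q0
    · obtain ⟨q1, hq1⟩ := hone
      have h2 : ∑ q ∈ ({q0, q1} : Finset (Σ i, Fin (a i).toNat)), finrank ℂ (W q.1) ≤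
          ∑ q : (Σ i, Fin (a i).toNat), finrank ℂ (W q.1) :=
        Finset.sum_le_sum_of_subset (Finset.subset_univ _)
      rw [Finset.sum_pair hq1.symm] at h2
      rcases hbig q0 with h3 | ⟨h3, -⟩
      · omega
      · rcases hbig q1 with h4 | ⟨h4, -⟩ <;> omega
    · push Not at hone
      have h2 : ∀ f : (Σ i, Fin (a i).toNat) → ℤ, ∑ q, f q = f q0 := by
        intro f
        rw [Finset.sum_eq_single q0 (fun q _ hq => absurd (hone q) hq)
          (fun h => absurd (Finset.mem_univ _) h)]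
      have h2' : ∑ q : (Σ i, Fin (a i).toNat), finrank ℂ (W q.1) = finrank ℂ (W q0.1) := by
        rw [Finset.sum_eq_single q0 (fun q _ hq => absurd (hone q) hq)
          (fun h => absurd (Finset.mem_univ _) h)]
      rw [h2']
      rcases hbig q0 with h3 | ⟨-, τ, hτ⟩
      · exact h3
      · exfalso
        apply hτ
        rw [← h2 fun q => Pool.Agent.Y90.tr Z (cjS τ (W q.1))]
        exact htr τ
  · refine ⟨⊤, inferInstance, fun g _ v => ?_⟩
    rw [MonoidHom.one_apply, one_pow, one_mul]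
    exact hφ g v

/-- Forms killed by the involutions are combinations of products of pairs. -/
theorem kill_LP {m : ℕ} (hm : 2 * m < N)
    (φ : MultilinearMap ℂ (fun _ : Fin m × Fin 2 => Fin G ⊕ Fin G → ℂ) ℂ)
    (hφ : ∀ D ∈ S, Kills (ph (Fin G ⊕ Fin G) D) φ) : φ ∈ NP (KB Z) (Fin m × Fin 2) := by
  refine NP_of_LP (inv_LP h hZ hs hl φ fun g v => ?_) ?_
  · refine inv_gam φ (fun D hD _ => ?_) g v
    obtain ⟨X, hX, rfl⟩ := exists_GG hD
    exact kills_LT hφ hX
  · rw [Nat.card_prod, Nat.card_fin, Nat.card_fin]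
    omega

end main

variable {H : Type} [AddCommGroup H] [Module ℚ H] {K : Type} [Field K] [CharZero K] [Algebra K ℂ]
  {T : Type} [AddCommGroup T] [Module ℂ T] {per : H →+ T} {Γ : Type} [Group Γ]
  {ρ : Representation K Γ (K ⊗[ℚ] H)} {χ : Γ →* K} {E : H → H → ℚ}

section ext

variable {k : Type*} [Field k] [CharZero k] {V : Type*} [AddCommGroup V] [Module k V]
  [FiniteDimensional k V] {Γ : Type*} [Group Γ] (ρ : Representation k Γ V) (χ : Γ →* k)

/-- From Tate forms over an extension to Tate classes of one degree. -/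
theorem codim_of_ext (Ω : Type*) [Field Ω] [CharZero Ω] [Algebra k Ω] {m : ℕ}
    (hall : ∀ φ : MultilinearMap Ω (fun _ : Fin m × Fin 2 => Ω ⊗[k] V) Ω,
      IsTate (bcr ρ Ω) (bcc χ Ω) m φ → φ ∈ Submodule.span Ω (PT (bcr ρ Ω) (bcc χ Ω) m)) :
    TateGeneratedInCodim ρ χ m := by
  classical
  intro n f hf
  obtain ⟨Δ, hΔ, hf⟩ := hf
  have h1 := altG_of_tate_mem ρ χ (n := n) (m := m) (fun φ hφ =>
    tate_descent_any (Ω := Ω) (Module.finBasis k V) ρ χ hall φ hφ) f Δ hΔ hf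
  refine Submodule.span_mono ?_ h1
  rintro g ⟨B, hB, hg⟩
  refine ⟨B, fun l => ?_, hg⟩
  obtain ⟨Δ', hΔ', h2⟩ := hB l
  refine ⟨Δ', hΔ', fun s hs v => ?_⟩
  rw [pow_one]
  exact h2 s hs v

end ext

/-- **Tate classes of low degree are generated in degree two.** -/
theorem generated_low (b : Basis (Fin G ⊕ Fin G) ℚ H) (hZ : PM Z)
    (hb : ∀ p q, E (b q) (b p) = Om G ℚ p q)
    (hC : Cht (per.comp b.equivFun.symm.toLinearMap.toAddMonoidHom) (JR Z))
    (hρ : IsTateModule per E ρ χ) (h : TD Z (SH per ρ χ b)) (hs : Gd Z (SH per ρ χ b)) {N : ℕ}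
    (hl : ∀ U : Submodule ℂ (Fin G ⊕ Fin G → ℂ), IrS (LZ Z) U → LgU Z N U) {m : ℕ}
    (hm : 2 * m < N) : TateGeneratedInCodim ρ χ m := by
  have : FiniteDimensional ℚ H := Module.Finite.of_basis b
  refine codim_of_ext (V := K ⊗[ℚ] H) ρ χ ℂ fun φ hφ => ?_
  refine NP_PT (bcr ρ ℂ) (bcc χ ℂ) ?_
  let φ' : MultilinearMap ℂ (fun _ : Fin m × Fin 2 => Fin G ⊕ Fin G → ℂ) ℂ :=
    φ.compLinearMap fun _ => (eY K b).symm.toLinearMap
  have h1 : φ = φ'.compLinearMap fun _ => (eY K b).toLinearMap := by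
    refine MultilinearMap.ext fun v => ?_
    change φ v = φ fun k => (eY K b).symm (eY K b (v k))
    simp only [LinearEquiv.symm_apply_apply]
  rw [h1]
  refine NP_comp (p := KB Z) _ (fun β hβ => tate2_of_kill b hZ hb hC hρ hβ) ?_
  refine kill_LP h hZ hs hl hm φ' ?_
  rintro _ ⟨σ, x, hx, rfl⟩ v
  obtain ⟨w, rfl⟩ : ∃ w : Fin m × Fin 2 → ℂ ⊗[K] (K ⊗[ℚ] H), v = fun k => eY K b (w k) :=
    ⟨fun k => (eY K b).symm (v k), by
      funext k
      exact ((eY K b).apply_symm_apply (v k)).symm⟩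
  have h2 := ht_lie hx m _ hφ w
  rw [← h2]
  refine Finset.sum_congr rfl fun k _ => ?_
  change φ _ = φ _
  congr 1
  funext l
  change (eY K b).symm _ = _
  by_cases hl : l = k
  · subst hl
    rw [Function.update_self, Function.update_self, LinearEquiv.symm_apply_eq]
    exact mt_mulVec b _ (w l)
  · rw [Function.update_of_ne hl, Function.update_of_ne hl, LinearEquiv.symm_apply_apply]

end

end Pool.Agent.K9h17.C
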