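import Mathlib
import Pool.Agent.K9h17.G.Quad
import Pool.Agent.K9h17.C.Mt

/-!
# Imaginary quadratic multiplication, and dimension twice a prime number
-/

set_option linter.unusedSectionVars false

namespace Pool.Agent.K9h17.C

open Module Pool.Agent.Y90 Pool.Agent.R915 Pool.Agent.N183.U5 Pool.Agent.K9h17.S Polynomial
open Pool.Agent.H204R3.GP TensorProduct Pool.Agent.N183.TS Pool.Agent.K9h17.G
open Pool.Agent.Y224.TS.St (IsTateModule)

noncomputable section

/-- Isogenies preserve the generators of the centre. -/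
theorem centreGen_iso {X Y : AV} {e : X.H ≃ₗ[ℚ] Y.H} (he : IsHom X Y e.toLinearMap)
    {φ : Module.End ℚ Y.H} (k : CentreGen Y φ) : CentreGen X (cjg e φ) := by
  have hes : IsHom Y X e.symm.toLinearMap := hom_symm e he
  have hb : ∀ b : Module.End ℚ X.H, IsHom X X b → IsHom Y Y ((cjg e).symm b) := by
    intro b hb
    rw [cjg_symm]
    exact hom_cjg hes hb
  obtain ⟨k1, k2, k3⟩ := k
  refine ⟨hom_cjg he k1, fun f hf => ?_, fun b hb1 hb2 => ?_⟩
  · have h1 := congrArg (cjg e) (k2 _ (hb f hf))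
    rwa [map_mul, map_mul, AlgEquiv.apply_symm_apply] at h1
  · have h2 := k3 _ (hb b hb1) fun f hf => by
      apply (cjg e).injective
      rw [map_mul, map_mul, AlgEquiv.apply_symm_apply]
      exact hb2 _ (hom_cjg he hf)
    rw [Algebra.adjoin_singleton_eq_range_aeval] at h2 ⊢
    obtain ⟨p, hp⟩ := h2
    refine ⟨p, ?_⟩
    change aeval φ p = _ at hp
    have h3 := Polynomial.aeval_algHom_apply (cjg e).toAlgHom φ p
    change aeval (cjg e φ) p = cjg e (aeval φ p) at h3
    change aeval (cjg e φ) p = b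
    rw [h3, hp, AlgEquiv.apply_symm_apply]

/-- Isogenies preserve the balanced class. -/
theorem balanced_iso {X Y : AV} {e : X.H ≃ₗ[ℚ] Y.H} (he : IsHom X Y e.toLinearMap)
    (h : BalancedOdd Y) : BalancedOdd X := by
  obtain ⟨a, Ψ, p, k, hΨ, hodd, hnm, hp, hdim, φ, hφ, him⟩ := h
  obtain ⟨Ψ', h1, h2⟩ := exists_tan he hΨ
  refine ⟨cjg e a, Ψ', p, maxField_iso he k, h1, hodd, hnm, ?_, ?_, cjg e φ, centreGen_iso he hφ,
    ?_⟩
  · intro s hs
    rw [minpoly_cjg] at hs
    rw [h2]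
    exact hp s hs
  · rw [minpoly_cjg, hdim, e.finrank_eq]
  · rw [minpoly_cjg]
    exact him

variable {X : AV} {d : ℚ} {h : Module.End ℚ X.H} (k : EndQuad X d h) {Ψ : Module.End ℂ X.T}
  (hΨ : ∀ v, Ψ (X.per v) = X.per (h v))
include k

theorem endQuad_iso {Y : AV} {e : Y.H ≃ₗ[ℚ] X.H} (he : IsHom Y X e.toLinearMap) :
    EndQuad Y d (cjg e h) where
  pos := k.pos
  hom := hom_cjg he k.hom
  sq w := by
    change e.symm (h (e (e.symm (h (e w))))) = -(d • w)
    rw [e.apply_symm_apply, k.sq, map_neg, map_smul, e.symm_apply_apply]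
  max g hg := by
    have hes : IsHom X Y e.symm.toLinearMap := hom_symm e he
    obtain ⟨x, y, hxy⟩ := k.max ((cjg e).symm g) (by
      rw [cjg_symm]
      exact hom_cjg hes hg)
    refine ⟨x, y, ?_⟩
    have h1 := congrArg (cjg e) hxy
    rw [AlgEquiv.apply_symm_apply] at h1
    rw [h1]
    refine LinearMap.ext fun v => ?_
    change e.symm (x • e v + y • h (e v)) = x • v + y • e.symm (h (e v))
    rw [map_add, map_smul, map_smul, e.symm_apply_apply]

theorem centreGen_quad : CentreGen X h :=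
  ⟨k.hom, comm_quad k, fun b hb _ => (maxField_quad k).2 b hb (comm_quad k b hb)⟩

theorem root_quad (hX : IsSimple X) {s : ℂ} (hs : aeval s (minpoly ℚ h) = 0) :
    s * s = -(d : ℂ) := by
  rw [minpoly_quad k hX.1, map_add, map_pow, aeval_X, aeval_C, pow_two] at hs
  have h2 := eq_neg_of_add_eq_zero_left hs
  rw [h2]
  rfl

include hΨ

/-- The balanced case. -/
theorem bal_quad (hX : IsSimple X) {p : ℕ} (hodd : Odd p) (hnm : NotMiddle p)
    (hp : ∀ s : ℂ, s * s = -(d : ℂ) → finrank ℂ (Ψ.eigenspace s) = p) : BalancedOdd X := by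
  obtain ⟨s0, hs0⟩ : ∃ s : ℂ, s * s = -(d : ℂ) := by
    obtain ⟨s, hs⟩ := IsAlgClosed.exists_pow_nat_eq (-(d : ℂ)) (n := 2) two_pos
    exact ⟨s, by rw [← hs, pow_two]⟩
  refine ⟨h, Ψ, p, maxField_quad k, hΨ, hodd, hnm, fun s hs => hp s (root_quad k hX hs), ?_,
    h, centreGen_quad k, fun s hs h0 => ?_⟩
  · rw [minpoly_quad k hX.1, natDegree_X_pow_add_C, X.rank, ← dim_add k hΨ hs0, hp s0 hs0,
      hp (-s0) (by rw [neg_mul_neg]; exact hs0)]
  · have h1 := root_quad k hX hs
    have h2 := conj_root k.pos h1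
    rw [Complex.conj_eq_iff_im.2 h0] at h2
    have h3 : s = 0 := by
      have h4 : (2 : ℂ) * s = 0 := by linear_combination h2
      exact (mul_eq_zero.1 h4).resolve_left two_ne_zero
    exact root_ne k.pos h1 h3

/-- The multiplicities are positive. -/
theorem sig_pos (hX : IsSimple X) (h2 : 2 ≤ finrank ℂ X.T) {s : ℂ} (hs : s * s = -(d : ℂ)) :
    0 < finrank ℂ (Ψ.eigenspace s) := by
  rw [Nat.pos_iff_ne_zero]
  intro h0
  have h1 := dim_add k hΨ hs
  rw [h0, zero_add] at h1
  have h3 : Ψ.eigenspace (-s) = ⊤ := Submodule.eq_top_of_finrank_eq h1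
  have h4 : ∀ x, Ψ x = (-s) • x := by
    intro x
    have h5 : x ∈ Ψ.eigenspace (-s) := by rw [h3]; trivial
    exact Module.End.mem_eigenspace_iff.1 h5
  have hre : s = (s.im : ℂ) * Complex.I := by
    have h5 := conj_root k.pos hs
    have h6 : s.re = 0 := by
      have h7 := congrArg Complex.re h5
      rw [Complex.conj_re, Complex.neg_re] at h7
      linarith
    nth_rewrite 1 [← Complex.re_add_im s]
    rw [h6, Complex.ofReal_zero, zero_add]
  have hr : s.im ≠ 0 := by
    intro h5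
    rw [h5, Complex.ofReal_zero, zero_mul] at hre
    exact root_ne k.pos hs hre
  have hI : ∀ x : X.T, Complex.I • x = (-(s.im)⁻¹ : ℝ) • Ψ x := by
    intro x
    rw [h4]
    have h6 : (-(s.im)⁻¹ : ℝ) • (-s) • x = ((-(s.im)⁻¹ : ℝ) : ℂ) • (-s) • x :=
      (Complex.coe_smul _ _).symm
    rw [h6, smul_smul]
    congr 1
    nth_rewrite 2 [hre]
    push_cast
    have h7 : (s.im : ℂ) ≠ 0 := by exact_mod_cast hr
    field_simp
  obtain ⟨v, hv⟩ := hX.1
  let W : Submodule ℚ X.H := Submodule.span ℚ {v, h v}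
  have hW : ∀ w ∈ W, h w ∈ W := by
    intro w hw
    induction hw using Submodule.span_induction with
    | mem w hw =>
      rcases hw with rfl | hw
      · exact Submodule.subset_span (Or.inr rfl)
      · rw [Set.mem_singleton_iff] at hw
        rw [hw, k.sq]
        exact W.neg_mem (W.smul_mem _ (Submodule.subset_span (Or.inl rfl)))
    | zero => rw [map_zero]; exact W.zero_mem
    | add x y _ _ hx hy => rw [map_add]; exact W.add_mem hx hy
    | smul c x _ hx => rw [map_smul]; exact W.smul_mem _ hx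
  have hsub : IsSub X W := by
    intro x hx
    induction hx using Submodule.span_induction with
    | mem x hx =>
      obtain ⟨w, hw, rfl⟩ := hx
      rw [hI, hΨ]
      exact Submodule.smul_mem _ _ (Submodule.subset_span ⟨h w, hW w hw, rfl⟩)
    | zero => rw [smul_zero]; exact Submodule.zero_mem _
    | add x y _ _ hx hy => rw [smul_add]; exact Submodule.add_mem _ hx hy
    | smul c x _ hx =>
      rw [smul_comm]
      exact Submodule.smul_mem _ _ hx
  rcases hX.2 W hsub with h5 | h5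
  · apply hv
    have h6 : v ∈ W := Submodule.subset_span (Or.inl rfl)
    rwa [h5, Submodule.mem_bot] at h6
  · have h6 : finrank ℚ W ≤ 2 := by
      classical
      have h7 := finrank_span_le_card (R := ℚ) ({v, h v} : Set X.H)
      refine h7.trans ?_
      rw [Set.toFinset_insert, Set.toFinset_singleton]
      exact Finset.card_le_two
    rw [h5, finrank_top, X.rank] at h6
    omega

omit hΨ in
/-- The size of the simple factors. -/
theorem large_quad (hX : IsSimple X) {Y : AV} (hY : IsFactor Y X) {N : ℕ}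
    (hΨ : ∀ v, Ψ (X.per v) = X.per (h v)) (hN : 2 * N ≤ finrank ℚ X.H) : IsLarge N Y := by
  obtain ⟨e, he⟩ := factor_simple hX hY
  obtain ⟨Ψ', h1, -⟩ := exists_tan he hΨ
  refine Or.inr ⟨cjg e h, Ψ', maxField_iso he (maxField_quad k), h1, Or.inl ?_⟩
  rw [minpoly_cjg, minpoly_quad k hX.1, natDegree_X_pow_add_C, e.finrank_eq]
  exact hN

/-- **Weil type**, balanced signature `(p, p)` with `p` odd: codimension less than `p`. -/
theorem tate_bal {K : Type} [Field K] [CharZero K] [Algebra K ℂ] [Algebra.IsAlgebraic K ℂ]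
    {Γ : Type} [Group Γ] (hX : IsSimple X) {p : ℕ} (hodd : Odd p) (hnm : NotMiddle p)
    (hp : ∀ s : ℂ, s * s = -(d : ℂ) → finrank ℂ (Ψ.eigenspace s) = p) {E : X.H → X.H → ℚ}
    (hE : Pool.Agent.Y90.St.IsPolarization X.per E)
    {ρ : Representation K Γ (K ⊗[ℚ] X.H)} {χ : Γ →* K}
    (hρ : IsTateModule X.per E ρ χ) {m : ℕ} (hm : m < p) : TateGeneratedInCodim ρ χ m := by
  obtain ⟨s0, hs0⟩ : ∃ s : ℂ, s * s = -(d : ℂ) := by
    obtain ⟨s, hs⟩ := IsAlgClosed.exists_pow_nat_eq (-(d : ℂ)) (n := 2) two_pos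
    exact ⟨s, by rw [← hs, pow_two]⟩
  have hs0' : -s0 * -s0 = -(d : ℂ) := by rw [neg_mul_neg]; exact hs0
  refine tate_low X hE (N := 2 * p) (fun Y hY => ⟨?_, large_quad k hX hY hΨ ?_⟩)
    (centre_quad k hΨ)
    (sep_quad k hΨ hs0 (hp s0 hs0) (hp (-s0) hs0') hodd.pos hodd.pos) hρ (by omega)
  · obtain ⟨e, he⟩ := factor_simple hX hY
    exact Or.inr (Or.inr (Or.inr (balanced_iso he (bal_quad k hΨ hX hodd hnm hp))))
  · rw [X.rank, ← dim_add k hΨ hs0, hp s0 hs0, hp (-s0) hs0']
    omega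

omit k hΨ

/-- A lower bound for the binomial coefficients. -/
theorem choose_ge : ∀ n k : ℕ, 2 ≤ k → k + 2 ≤ n → n * (n - 1) ≤ 2 * n.choose k := by
  have h6 : ∀ n k : ℕ, 1 ≤ k → k + 1 ≤ n → n ≤ n.choose k := by
    intro n
    induction n with
    | zero => intro k h1 h2; omega
    | succ n ih =>
      intro k h1 h2
      obtain ⟨k, rfl⟩ : ∃ j, k = j + 1 := ⟨k - 1, by omega⟩
      rw [Nat.choose_succ_succ']
      by_cases h7 : k + 1 + 1 ≤ n
      · have h8 := ih (k + 1) (by omega) h7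
        have h9 : 0 < n.choose k := Nat.choose_pos (by omega)
        omega
      · obtain rfl : n = k + 1 := by omega
        rw [Nat.choose_succ_self_right, Nat.choose_self]
  intro n
  induction n with
  | zero => intro k h1 h2; omega
  | succ n ih =>
    intro k h1 h2
    by_cases h3 : k + 2 ≤ n
    · obtain ⟨j, rfl⟩ : ∃ j, k = j + 1 := ⟨k - 1, by omega⟩
      rw [Nat.choose_succ_succ']
      have h4 := ih (j + 1) h1 h3
      have h5 := h6 n j (by omega) (by omega)
      obtain ⟨i, rfl⟩ : ∃ i, n = i + 1 := ⟨n - 1, by omega⟩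
      rw [Nat.add_sub_cancel] at h4 ⊢
      nlinarith
    · obtain rfl : n = k + 1 := by omega
      have h4 : (k + 1 + 1).choose k = (k + 1 + 1).choose 2 :=
        Nat.choose_symm_of_eq_add (by omega)
      rw [h4, Nat.choose_two_right, Nat.mul_div_cancel' (Nat.even_mul_pred_self _).two_dvd]

theorem prime_le {q n k : ℕ} (hq : q.Prime) (hk : k ≤ n) (h : q ∣ n.choose k) : q ≤ n := by
  rw [← hq.dvd_factorial]
  rw [← Nat.choose_mul_factorial_mul_factorial hk, mul_assoc]
  exact Dvd.dvd.mul_right h _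

theorem prime_notMiddle {q : ℕ} (hq : q.Prime) : NotMiddle q := by
  intro t ht h1
  have h2 := prime_le hq (n := 2 * t - 1) (k := t) (by omega) (by rw [← h1])
  have h3 := choose_ge (2 * t - 1) t (by omega) (by omega)
  rw [← h1] at h3
  obtain ⟨r, hr⟩ : ∃ r, 2 * t - 1 = r + 1 := ⟨2 * t - 2, by omega⟩
  rw [hr] at h2 h3
  rw [Nat.add_sub_cancel] at h3
  have h4 : 4 ≤ r := by omega
  nlinarith

theorem prime_notBinomial {p p' q : ℕ} (hq : q.Prime) (h5 : q ≠ 5) (hne : p ≠ p')
    (h : p + p' = 2 * q) : NotBinomial p p' := by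
  rintro d k h2 hk ⟨h3, h4⟩
  obtain ⟨j, rfl⟩ : ∃ j, k = j + 1 := ⟨k - 1, by omega⟩
  have h6 : (d + 1).choose (j + 1) = 2 * q := by
    rw [Nat.choose_succ_succ', ← h, h3, h4, Nat.add_sub_cancel]
  have h7 := prime_le hq (n := d + 1) (k := j + 1) (by omega) (by rw [h6]; exact ⟨2, by ring⟩)
  have h8 := choose_ge (d + 1) (j + 1) h2 (by omega)
  rw [h6, Nat.add_sub_cancel] at h8
  have h9 : d ≤ 4 := by
    by_contra h10
    push Not at h10
    nlinarith
  have h10 : j ≤ 3 := by omega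
  interval_cases d <;> interval_cases j <;> simp [Nat.choose] at h3 h4 h6 <;> omega

theorem prime_gcd {p p' q : ℕ} (hq : q.Prime) (hp : 0 < p) (hp' : 0 < p') (hne : p ≠ p')
    (h : p + p' = 2 * q) : ¬p + p' ∣ p.gcd p' * p.gcd p' := by
  intro h1
  rw [h] at h1
  have h2 : p.gcd p' ≤ p := Nat.gcd_le_left _ hp
  have h3 : p.gcd p' ≤ p' := Nat.gcd_le_right _ hp'
  have h4 : p.gcd p' < q := by omega
  have h5 : 0 < p.gcd p' := Nat.gcd_pos_of_pos_left _ hp
  have h6 : q ∣ p.gcd p' * p.gcd p' := (Dvd.intro_left 2 rfl).trans h1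
  have h7 : q ∣ p.gcd p' := by
    rcases hq.dvd_mul.1 h6 with h7 | h7 <;> exact h7
  have h8 := Nat.le_of_dvd h5 h7
  omega

include k

/-- **Dimension twice a prime number**: codimension less than the prime number. -/
theorem tate_prime {K : Type} [Field K] [CharZero K] [Algebra K ℂ] [Algebra.IsAlgebraic K ℂ]
    {Γ : Type} [Group Γ] (hX : IsSimple X) {q : ℕ} (hq : q.Prime) (hq5 : q ≠ 5)
    (hdim : finrank ℚ X.H = 4 * q) {E : X.H → X.H → ℚ}
    (hE : Pool.Agent.Y90.St.IsPolarization X.per E)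
    {ρ : Representation K Γ (K ⊗[ℚ] X.H)} {χ : Γ →* K}
    (hρ : IsTateModule X.per E ρ χ) {m : ℕ} (hm : m < q) : TateGeneratedInCodim ρ χ m := by
  obtain ⟨Ψ, hΨ⟩ := k.hom
  obtain ⟨s, hs⟩ : ∃ s : ℂ, s * s = -(d : ℂ) := by
    obtain ⟨s, hs⟩ := IsAlgClosed.exists_pow_nat_eq (-(d : ℂ)) (n := 2) two_pos
    exact ⟨s, by rw [← hs, pow_two]⟩
  have hs' : -s * -s = -(d : ℂ) := by rw [neg_mul_neg]; exact hs
  have hT : finrank ℂ X.T = 2 * q := by
    have h1 := X.rank
    omega
  have h2 : 2 ≤ finrank ℂ X.T := by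
    have := hq.two_le
    omega
  have hp0 := sig_pos k hΨ hX h2 hs
  have hq0 := sig_pos k hΨ hX h2 hs'
  have hadd := dim_add k hΨ hs
  rw [hT] at hadd
  by_cases hne : finrank ℂ (Module.End.eigenspace Ψ s) = finrank ℂ (Module.End.eigenspace Ψ (-s))
  · have hpq : finrank ℂ (Module.End.eigenspace Ψ s) = q := by omega
    have hpq' : finrank ℂ (Module.End.eigenspace Ψ (-s)) = q := by omega
    have hall : ∀ t : ℂ, t * t = -(d : ℂ) → finrank ℂ (Module.End.eigenspace Ψ t) = q := by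
      intro t ht
      rcases root_cases hs ht with h3 | h3
      · rw [h3, hpq]
      · rw [h3, hpq']
    by_cases hq2 : q = 2
    · subst hq2
      refine tate_low X hE (N := 4) (fun Y hY => ⟨?_, large_quad k hX hY hΨ (by omega)⟩)
        (centre_quad k hΨ) (sep_quad k hΨ hs hpq hpq' two_pos two_pos) hρ (by omega)
      obtain ⟨e, he⟩ := factor_simple hX hY
      obtain ⟨Ψ', h4, h5⟩ := exists_tan he hΨ
      refine Or.inl (Or.inr (Or.inr (Or.inl ⟨d, cjg e h, endQuad_iso k he, Ψ', h4, fun t ht => ?_⟩)))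
      have h6 : LinearMap.ker (Ψ' - t • LinearMap.id) = Ψ'.eigenspace t := by
        ext v
        rw [LinearMap.mem_ker, Module.End.mem_eigenspace_iff, LinearMap.sub_apply,
          LinearMap.smul_apply, LinearMap.id_apply, sub_eq_zero]
      rw [h6, h5]
      exact (hall t ht).le.trans (by norm_num)
    · exact tate_bal k hΨ hX (hq.odd_of_ne_two hq2) (prime_notMiddle hq) hall hE hρ hm
  · have h3 := tate_quad k hΨ hs rfl rfl hp0 hq0 hX hne
      (prime_notBinomial hq hq5 hne hadd) (prime_gcd hq hp0 hq0 hne hadd) hE hρ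
    exact fun n f hf => h3 n m f hf

end

end Pool.Agent.K9h17.C
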